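import Pool.Agent.Edge.Final

/-!
# Erfc edge universality for polynomial Bergman kernels on `ℂ^d`

Full positive answer to Q1 of MP_36b28b_pr, for all `d ≥ 1` and all `C²` strictly plurisubharmonic
potentials.
-/

open MeasureTheory Filter Topology Complex
open scoped ComplexConjugate ComplexOrder
open Pool.Agent.Edge

namespace Pool.Agent.Results.MP_36b28b_pr.ErfcEdgeUniversality

/-- Let `d ≥ 1`, `Q : ℂ^d → ℝ` be `C²`, strictly plurisubharmonic, with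
`liminf Q(z)/log|z|² > 1`, `(P n)` orthonormal bases of the polynomials of total degree `< n` in
`L²(e^{-nQ}dω)` (for all large `n`), `S` the droplet, `nv` the outward unit normal of `S` at `z₀`,
`H = ∂∂̄Q(z₀)`, `B = H^{1/2}` (the positive definite matrix with `B B = H`), `m = nv B⁻¹/|nv B⁻¹|`
and `ζ_n(ξ) = z₀ + n^{-1/2} (ξ m) B⁻¹`.  Then, up to cocycles, `K_n(ζ_n(ξ), ζ_n(η))/(n^d det H)`
converges locally uniformly to `½ exp(ξη̄ - (|ξ|²+|η|²)/2) erfc((ξ+η̄)/√2)`. -/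
theorem result {d : ℕ} (hd : 1 ≤ d) {Q : Cd d → ℝ} (hQ : ContDiff ℝ 2 Q)
    (hpsh : ∀ z, (complexHessian Q z).PosDef)
    (hgrow : (1 : EReal) < Filter.liminf (fun z : Cd d =>
      ((Q z / Real.log (‖z‖ ^ 2) : ℝ) : EReal)) (Bornology.cobounded (Cd d)))
    {J : ℕ → Type} [∀ n, Fintype (J n)] (P : ∀ n, J n → MvPolynomial (Fin d) ℂ)
    (hP : ∀ᶠ n in atTop, IsPolyONB Q n (P n)) {S : Set (Cd d)}
    (hS : IsDroplet Q (fun n => bergman Q n (P n)) S) {z₀ nv : Cd d}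
    (hn : IsOutwardUnitNormal S z₀ nv) {B : Matrix (Fin d) (Fin d) ℂ} (hB : B.PosDef)
    (hBH : B * B = complexHessian Q z₀) :
    ∃ c : ℕ → ℂ → ℂ, (∀ n ξ, ‖c n ξ‖ = 1) ∧
      TendstoLocallyUniformly (fun (n : ℕ) (p : ℂ × ℂ) => c n p.1 * conj (c n p.2) *
        (bergman Q n (P n)
          (z₀ + ((Real.sqrt n)⁻¹ : ℝ) • rowMul (p.1 • ((‖rowMul nv B⁻¹‖⁻¹ : ℝ) • rowMul nv B⁻¹)) B⁻¹)
          (z₀ + ((Real.sqrt n)⁻¹ : ℝ) • rowMul (p.2 • ((‖rowMul nv B⁻¹‖⁻¹ : ℝ) • rowMul nv B⁻¹)) B⁻¹)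
          / ((n : ℂ) ^ d * (complexHessian Q z₀).det)))
      (fun p => 1 / 2 * cexp (p.1 * conj p.2 - ((‖p.1‖ ^ 2 + ‖p.2‖ ^ 2 : ℝ) : ℂ) / 2) *
        erfc ((p.1 + conj p.2) / (Real.sqrt 2 : ℂ))) atTop :=
  edge_universality hd hQ hpsh hgrow P hP hS hn hB hBH

end Pool.Agent.Results.MP_36b28b_pr.ErfcEdgeUniversality
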